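import Pool.Agent.Run7.h266.AZ.Mix

set_option autoImplicit false
set_option linter.unusedSectionVars false
set_option linter.unusedSimpArgs false

open scoped InnerProductSpace InnerProduct ENNReal Pointwise

/-! An isoperimetric lower bound for the rank of a matrix over the group algebra. -/

namespace Run7.h596.AZ

open Pool.Agent.W649.ZL Run7.h266.AZ

universe u v w

section
variable {G : Type u} {K : Type v} {L : Type w} [Group G] [Fintype K] [Fintype L]
  [DecidableEq K] [DecidableEq L]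

theorem proj_sq (V : Submodule ℂ (EE G L)) [FiniteDimensional ℂ V] (y : G × L) :
    ‖V.starProjection (dl y)‖ ^ 2
      = ∑ a, ‖((stdOrthonormalBasis ℂ V a : V) : EE G L) y‖ ^ 2 := by
  set e := stdOrthonormalBasis ℂ V with he
  have h2 := e.sum_sq_norm_inner_right (V.orthogonalProjectionOnto (dl y))
  have h3 : ‖V.starProjection (dl y)‖ = ‖V.orthogonalProjectionOnto (dl y)‖ := rfl
  rw [h3, ← h2]
  refine Finset.sum_congr rfl fun a _ => ?_
  have h4 : ⟪e a, V.orthogonalProjectionOnto (dl y)⟫_ℂ = ⟪(e a : EE G L), dl y⟫_ℂ := by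
    rw [Submodule.coe_inner]
    change ⟪(e a : EE G L), V.starProjection (dl y)⟫_ℂ = _
    rw [← Submodule.inner_starProjection_left_eq_right,
      Submodule.starProjection_eq_self_iff.2 (e a).2]
  rw [h4, inner_dl_right, RCLike.norm_conj]

/-- The sum of the diagonal of the projection to a finite-dimensional space of vectors supported
over `X`. -/
theorem sum_projL (X : Finset G) (V : Submodule ℂ (EE G L)) [FiniteDimensional ℂ V]
    (hV : ∀ v ∈ V, ∀ x, x ∉ X → ∀ l, v (x, l) = 0) :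
    ∑ s ∈ X, ∑ l : L, ‖V.starProjection (dl (s, l))‖ ^ 2 = Module.finrank ℂ V := by
  set e := stdOrthonormalBasis ℂ V with he
  have h1 : ∀ y : G × L, ‖V.starProjection (dl y)‖ ^ 2 = ∑ a, ‖(e a : EE G L) y‖ ^ 2 :=
    proj_sq V
  have h5 : ∀ a, ∑ y ∈ X ×ˢ (Finset.univ : Finset L), ‖(e a : EE G L) y‖ ^ 2 = 1 := by
    intro a
    have h6 : ‖(e a : EE G L)‖ = 1 := e.orthonormal.1 a
    have h7 : ‖(e a : EE G L)‖ ^ 2
        = ∑ y ∈ X ×ˢ (Finset.univ : Finset L), ‖(e a : EE G L) y‖ ^ 2 := by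
      rw [norm_sq_tsum, tsum_eq_sum (s := X ×ˢ (Finset.univ : Finset L))]
      rintro ⟨x, l⟩ hx
      have : (e a : EE G L) (x, l) = 0 := by
        apply hV _ (e a).2 x
        intro hxX
        exact hx (Finset.mem_product.2 ⟨hxX, Finset.mem_univ l⟩)
      rw [this]
      simp
    rw [← h7, h6, one_pow]
  calc ∑ s ∈ X, ∑ l : L, ‖V.starProjection (dl (s, l))‖ ^ 2
      = ∑ y ∈ X ×ˢ (Finset.univ : Finset L), ‖V.starProjection (dl y)‖ ^ 2 :=
        (Finset.sum_product X Finset.univ (fun y => ‖V.starProjection (dl y)‖ ^ 2)).symm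
    _ = ∑ y ∈ X ×ˢ (Finset.univ : Finset L), ∑ a, ‖(e a : EE G L) y‖ ^ 2 :=
        Finset.sum_congr rfl fun y _ => h1 y
    _ = ∑ a, ∑ y ∈ X ×ˢ (Finset.univ : Finset L), ‖(e a : EE G L) y‖ ^ 2 := Finset.sum_comm
    _ = Module.finrank ℂ V := by
        rw [Finset.sum_congr rfl fun a _ => h5 a]
        simp

/-- A finite-dimensional subspace, supported over finite sets `X l`, of an invariant subspace. -/
theorem finrank_le_vd (P : Submodule ℂ (EE G L)) (hP : Pool.Agent.W649.ZL.Inv P)
    (V : Submodule ℂ (EE G L)) [FiniteDimensional ℂ V] (hVP : V ≤ P) (X : L → Finset G) (N : ℕ)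
    (hN : ∀ l, (X l).card ≤ N)
    (hV : ∀ v ∈ V, ∀ l x, x ∉ X l → v (x, l) = 0) :
    (Module.finrank ℂ V : ℝ) ≤ N * vd P := by
  classical
  set Y : Finset G := Finset.univ.biUnion X with hY
  have hXY : ∀ l, X l ⊆ Y := fun l => Finset.subset_biUnion_of_mem X (Finset.mem_univ l)
  rw [← sum_projL Y V (fun v hv x hx l => hV v hv l x (fun h => hx (hXY l h)))]
  set U := P.topologicalClosure with hU
  have hVU : V ≤ U := hVP.trans P.le_topologicalClosure
  have hUi : Pool.Agent.W649.ZL.Inv U := hP.topologicalClosure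
  have h1 : ∀ (s : G) (l : L), ‖V.starProjection (dl (s, l))‖ ^ 2
      ≤ ‖U.starProjection (dl ((1 : G), l))‖ ^ 2 := by
    intro s l
    have e1 : V.starProjection (dl (s, l)) = V.starProjection (U.starProjection (dl (s, l))) := by
      have := Submodule.starProjection_comp_starProjection_of_le hVU
      rw [← ContinuousLinearMap.comp_apply, this]
    have e2 : (dl (s, l) : EE G L) = tr s⁻¹ (dl ((1 : G), l)) := by
      rw [tr_dl]; simp
    have e3 : ‖U.starProjection (dl (s, l))‖ = ‖U.starProjection (dl ((1 : G), l))‖ := by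
      rw [e2, proj_tr hUi, norm_tr]
    rw [e1, ← e3]
    gcongr
    exact Submodule.norm_starProjection_apply_le _ _
  have h2 : ∀ l, ∑ s ∈ Y, ‖V.starProjection (dl (s, l))‖ ^ 2
      = ∑ s ∈ X l, ‖V.starProjection (dl (s, l))‖ ^ 2 := by
    intro l
    symm
    apply Finset.sum_subset (hXY l)
    intro s _ hs
    rw [proj_sq]
    apply Finset.sum_eq_zero
    intro a _
    rw [hV _ (stdOrthonormalBasis ℂ V a).2 l s hs]
    simp
  rw [Finset.sum_comm]
  calc ∑ l : L, ∑ s ∈ Y, ‖V.starProjection (dl (s, l))‖ ^ 2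
      = ∑ l : L, ∑ s ∈ X l, ‖V.starProjection (dl (s, l))‖ ^ 2 :=
        Finset.sum_congr rfl fun l _ => h2 l
    _ ≤ ∑ l : L, ∑ s ∈ X l, ‖U.starProjection (dl ((1 : G), l))‖ ^ 2 :=
        Finset.sum_le_sum fun l _ => Finset.sum_le_sum fun s _ => h1 s l
    _ ≤ ∑ l : L, (N : ℝ) * ‖U.starProjection (dl ((1 : G), l))‖ ^ 2 := by
        apply Finset.sum_le_sum
        intro l _
        rw [Finset.sum_const, nsmul_eq_mul]
        have : ((X l).card : ℝ) ≤ N := by exact_mod_cast hN l
        gcongr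
    _ = N * vd P := by
        rw [← Finset.mul_sum]
        rfl

/-- a finitely supported row vector as a vector of `EE G K` -/
noncomputable def emb : ((K × G) →₀ ℂ) →ₗ[ℂ] EE G K :=
  Finsupp.linearCombination ℂ (fun p : K × G => (dl (p.2⁻¹, p.1) : EE G K))

theorem emb_apply (x : (K × G) →₀ ℂ) (g : G) (k : K) : emb x (g, k) = x (k, g⁻¹) := by
  classical
  induction x using Finsupp.induction_linear with
  | zero => rw [map_zero]; rfl
  | add a b ha hb =>
    rw [map_add]
    change emb a (g, k) + emb b (g, k) = _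
    rw [ha, hb]
    rfl
  | single p c =>
    unfold emb
    rw [Finsupp.linearCombination_single]
    change c * (dl (p.2⁻¹, p.1) : EE G K) (g, k) = _
    by_cases h : p = (k, g⁻¹)
    · subst h
      have : ((g⁻¹)⁻¹, k) = (g, k) := by rw [inv_inv]
      simp only [this, dl_apply_self, Finsupp.single_eq_same, mul_one]
    · rw [dl_apply_ne, Finsupp.single_eq_of_ne (Ne.symm h), mul_zero]
      intro h2
      apply h
      have h3 := Prod.mk.inj h2
      ext
      · exact h3.2.symm
      · change p.2 = g⁻¹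
        rw [h3.1, inv_inv]

theorem mo_emb (A : K → L → (G →₀ ℂ)) (x : (K × G) →₀ ℂ) (g : G) (j : L) :
    mo A (emb x) (g⁻¹, j) = ∑ k : K, ∑ h ∈ (A k j).support, x (k, g * h⁻¹) * A k j h := by
  rw [mo_apply]
  refine Finset.sum_congr rfl fun k _ => ?_
  rw [← Finset.sum_subset (sub_allS A k j)]
  · refine Finset.sum_congr rfl fun h _ => ?_
    rw [emb_apply, mul_comm]
    congr 2
    simp
  · intro h _ hh
    rw [Finsupp.notMem_support_iff.1 hh, zero_mul]

theorem emb_injective : Function.Injective (emb (G := G) (K := K)) := by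
  rw [injective_iff_map_eq_zero]
  intro x hx
  ext ⟨k, g⟩
  have h := emb_apply x g⁻¹ k
  rw [hx, inv_inv] at h
  exact h.symm

/-- the relations over `T`: the finitely supported `x` with `x A = 0` whose entries `x k` are
supported in `T (y k)` -/
def rel (A : K → L → (G →₀ ℂ)) (y : K → G) (T : Finset G) : Submodule ℂ ((K × G) →₀ ℂ) where
  carrier := {x | (∀ k g, g * (y k)⁻¹ ∉ T → x (k, g) = 0) ∧
    ∀ j g, ∑ k : K, ∑ h ∈ (A k j).support, x (k, g * h⁻¹) * A k j h = 0}
  add_mem' := by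
    rintro x y ⟨h1, h2⟩ ⟨h3, h4⟩
    refine ⟨fun k g hg => ?_, fun j g => ?_⟩
    · rw [Finsupp.add_apply, h1 k g hg, h3 k g hg, add_zero]
    · have e : ∑ k : K, ∑ h ∈ (A k j).support, (x + y) (k, g * h⁻¹) * A k j h
          = (∑ k : K, ∑ h ∈ (A k j).support, x (k, g * h⁻¹) * A k j h)
          + ∑ k : K, ∑ h ∈ (A k j).support, y (k, g * h⁻¹) * A k j h := by
        simp only [Finsupp.add_apply, add_mul, Finset.sum_add_distrib]
      rw [e, h2, h4, add_zero]
  zero_mem' := by
    refine ⟨fun k g _ => rfl, fun j g => ?_⟩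
    simp
  smul_mem' := by
    rintro c x ⟨h1, h2⟩
    refine ⟨fun k g hg => ?_, fun j g => ?_⟩
    · rw [Finsupp.smul_apply, h1 k g hg, smul_zero]
    · have e : ∑ k : K, ∑ h ∈ (A k j).support, (c • x) (k, g * h⁻¹) * A k j h
          = c * ∑ k : K, ∑ h ∈ (A k j).support, x (k, g * h⁻¹) * A k j h := by
        simp only [Finsupp.smul_apply, smul_eq_mul, Finset.mul_sum, mul_assoc]
      rw [e, h2, mul_zero]

/-- the positions over `T` -/
def DD (y : K → G) (T : Finset G) : Finset (K × G) :=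
  ((Finset.univ : Finset K) ×ˢ T).map ⟨fun p => (p.1, p.2 * y p.1), by
    rintro ⟨a, b⟩ ⟨c, d⟩ h
    obtain ⟨h1, h2⟩ := Prod.mk.inj h
    simp only at h1 h2
    subst h1
    rw [mul_right_cancel h2]⟩

theorem mem_DD (y : K → G) (T : Finset G) (k : K) (g : G) :
    (k, g) ∈ DD y T ↔ g * (y k)⁻¹ ∈ T := by
  unfold DD
  rw [Finset.mem_map]
  constructor
  · rintro ⟨⟨a, b⟩, h1, h2⟩
    obtain ⟨h3, h4⟩ := Prod.mk.inj h2
    simp only at h3 h4
    subst h3
    rw [← h4, mul_inv_cancel_right]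
    exact (Finset.mem_product.1 h1).2
  · intro h
    refine ⟨(k, g * (y k)⁻¹), Finset.mem_product.2 ⟨Finset.mem_univ _, h⟩, ?_⟩
    change (k, g * (y k)⁻¹ * y k) = (k, g)
    rw [inv_mul_cancel_right]

/-- the vectors over `T` -/
abbrev Q (y : K → G) (T : Finset G) : Submodule ℂ ((K × G) →₀ ℂ) :=
  Finsupp.supported ℂ ℂ ((DD y T : Finset (K × G)) : Set (K × G))

theorem mem_Q (y : K → G) (T : Finset G) (x : (K × G) →₀ ℂ) :
    x ∈ Q y T ↔ ∀ k g, g * (y k)⁻¹ ∉ T → x (k, g) = 0 := by
  rw [Finsupp.mem_supported']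
  constructor
  · intro h k g hg
    apply h
    intro h2
    exact hg ((mem_DD y T k g).1 h2)
  · rintro h ⟨k, g⟩ hkg
    apply h
    intro h2
    exact hkg ((mem_DD y T k g).2 h2)

instance finQ (y : K → G) (T : Finset G) : FiniteDimensional ℂ (Q y T) :=
  Module.Finite.equiv (Finsupp.supportedEquivFinsupp (M := ℂ) (R := ℂ)
      ((DD y T : Finset (K × G)) : Set (K × G))).symm

theorem finrank_Q (y : K → G) (T : Finset G) :
    Module.finrank ℂ (Q y T) = Fintype.card K * T.card := by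
  have e := (Finsupp.supportedEquivFinsupp (M := ℂ) (R := ℂ)
      ((DD y T : Finset (K × G)) : Set (K × G))).finrank_eq
  have e3 : Fintype.card ((DD y T : Finset (K × G)) : Set (K × G)) = (DD y T).card := by simp
  rw [e, Module.finrank_finsupp_self, e3]
  unfold DD
  rw [Finset.card_map, Finset.card_product, Finset.card_univ]

theorem rel_le_Q (A : K → L → (G →₀ ℂ)) (y : K → G) (T : Finset G) : rel A y T ≤ Q y T :=
  fun x hx => (mem_Q y T x).2 hx.1

instance finrel (A : K → L → (G →₀ ℂ)) (y : K → G) (T : Finset G) :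
    FiniteDimensional ℂ (rel A y T) :=
  Submodule.finiteDimensional_of_le (rel_le_Q A y T)

theorem mem_rel (A : K → L → (G →₀ ℂ)) (y : K → G) (T : Finset G) (x : (K × G) →₀ ℂ) :
    x ∈ rel A y T ↔ x ∈ Q y T ∧ mo A (emb x) = 0 := by
  constructor
  · rintro ⟨h1, h2⟩
    refine ⟨(mem_Q y T x).2 h1, ?_⟩
    ext ⟨w, j⟩
    have h3 := mo_emb A x w⁻¹ j
    rw [inv_inv, h2] at h3
    exact h3
  · rintro ⟨h1, h2⟩
    refine ⟨(mem_Q y T x).1 h1, fun j g => ?_⟩
    rw [← mo_emb, h2]
    rfl

/-- **The relations bound the dimension of the kernel from below.** -/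
theorem rel_le_ker (A : K → L → (G →₀ ℂ)) (y : K → G) (T : Finset G) :
    (Module.finrank ℂ (rel A y T) : ℝ) ≤ T.card * (Fintype.card K - rkM A) := by
  classical
  have e1 : (Fintype.card K : ℝ) - rkM A = vd (LinearMap.ker (mo A : EE G K →ₗ[ℂ] EE G L)) := by
    rw [rkM_eq, kerDimM_mo]; ring
  set V : Submodule ℂ (EE G K) := (rel A y T).map emb with hV
  have e2 : Module.finrank ℂ V = Module.finrank ℂ (rel A y T) := by
    rw [hV]
    exact (Submodule.equivMapOfInjective emb emb_injective (rel A y T)).finrank_eq.symm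
  have h := finrank_le_vd (LinearMap.ker (mo A : EE G K →ₗ[ℂ] EE G L)) (Inv_ker _ (mo_eqv A)) V (by
      rintro _ ⟨x, hx, rfl⟩
      exact ((mem_rel A y T x).1 hx).2) (fun k => T.image (fun t => (t * y k)⁻¹)) T.card
    (fun k => Finset.card_image_le) (by
      rintro _ ⟨x, hx, rfl⟩ k w hw
      rw [emb_apply]
      apply hx.1
      intro h1
      apply hw
      rw [Finset.mem_image]
      exact ⟨w⁻¹ * (y k)⁻¹, h1, by group⟩)
  rw [e2, ← e1] at h
  exact h

open Classical in
/-- **The isoperimetric inequality.** -/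
theorem le_rel_add (A : K → L → (G →₀ ℂ)) (y : K → G) (z : L → G) (S T : Finset G)
    (hS : ∀ i j, ∀ t ∈ (A i j).support, y i * t * z j ∈ S) :
    (Fintype.card K * T.card : ℝ) ≤ Module.finrank ℂ (rel A y T) + (T * S).card * rkM A := by
  set Φ : Q y T →ₗ[ℂ] EE G L := ((mo A : EE G K →ₗ[ℂ] EE G L).comp emb).comp (Q y T).subtype
    with hΦ
  have hΦa : ∀ x : Q y T, Φ x = mo A (emb x.1) := fun x => rfl
  have hker : Module.finrank ℂ (LinearMap.ker Φ) = Module.finrank ℂ (rel A y T) := by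
    have h1 : LinearMap.ker Φ = (rel A y T).comap (Q y T).subtype := by
      ext x
      rw [LinearMap.mem_ker, Submodule.mem_comap, mem_rel, hΦa]
      exact ⟨fun h => ⟨x.2, h⟩, fun h => h.2⟩
    rw [h1]
    exact (Submodule.comapSubtypeEquivOfLe (rel_le_Q A y T)).finrank_eq
  have hrn := LinearMap.finrank_range_add_finrank_ker (K := ℂ) (V := Q y T) (V₂ := EE G L) Φ
  rw [hker, finrank_Q] at hrn
  set W := LinearMap.range Φ with hW
  have hle := finrank_le_vd (LinearMap.range (mo A : EE G K →ₗ[ℂ] EE G L)) (by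
      rintro k _ ⟨f, rfl⟩
      exact ⟨tr k f, mo_eqv A k f⟩) W (by
      rintro _ ⟨x, rfl⟩
      exact ⟨emb x.1, rfl⟩) (fun l => (T * S).image (fun w => (w * (z l)⁻¹)⁻¹)) (T * S).card
      (fun l => Finset.card_image_le) (by
      rintro _ ⟨x, rfl⟩ l w hw
      rw [hΦa]
      have e : w = (w⁻¹)⁻¹ := (inv_inv w).symm
      rw [e, mo_emb]
      apply Finset.sum_eq_zero
      intro k _
      apply Finset.sum_eq_zero
      intro t ht
      have hz : x.1 (k, w⁻¹ * t⁻¹) = 0 := by
        apply (mem_Q y T x.1).1 x.2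
        intro h2
        apply hw
        rw [Finset.mem_image]
        refine ⟨w⁻¹ * z l, ?_, by group⟩
        rw [Finset.mem_mul]
        exact ⟨w⁻¹ * t⁻¹ * (y k)⁻¹, h2, y k * t * z l, hS k l t ht, by group⟩
      rw [hz, zero_mul])
  have hle' : (Module.finrank ℂ W : ℝ) ≤ (T * S).card * rkM A := hle
  have hrn' : (Module.finrank ℂ W : ℝ) + Module.finrank ℂ (rel A y T)
      = Fintype.card K * T.card := by
    exact_mod_cast hrn
  linarith

open Classical in
/-- rows without relations: growth -/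
theorem growth (A : K → L → (G →₀ ℂ)) (y : K → G) (z : L → G) (S : Finset G)
    (hS : ∀ i j, ∀ t ∈ (A i j).support, y i * t * z j ∈ S) (h0 : ∀ T : Finset G, rel A y T = ⊥)
    (k : ℕ) :
    (Fintype.card K : ℝ) ^ k ≤ (S ^ k).card * rkM A ^ k := by
  have hr : 0 ≤ rkM A := vd_nonneg _
  induction k with
  | zero => simp
  | succ k ih =>
    have h1 := le_rel_add A y z S (S ^ k) hS
    rw [h0, finrank_bot, Nat.cast_zero, zero_add] at h1
    have h1' : (Fintype.card K * (S ^ k).card : ℝ) ≤ (S ^ k * S).card * rkM A := h1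
    calc (Fintype.card K : ℝ) ^ (k + 1) = Fintype.card K * (Fintype.card K : ℝ) ^ k := by ring
      _ ≤ Fintype.card K * ((S ^ k).card * rkM A ^ k) := by gcongr
      _ = (Fintype.card K * (S ^ k).card) * rkM A ^ k := by ring
      _ ≤ ((S ^ k * S).card * rkM A) * rkM A ^ k := by gcongr
      _ = (S ^ (k + 1)).card * rkM A ^ (k + 1) := by rw [pow_succ S, pow_succ (rkM A)]; ring

theorem elem_one : (elem (1 : G) () () : EE G Unit →L[ℂ] EE G Unit)
    = ContinuousLinearMap.id ℂ _ := Ltr_one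

/-- the rank of a one by one matrix -/
theorem rkM_unit (α : G →₀ ℂ) : rkM (K := Unit) (L := Unit) (fun _ _ => α) = rk (iv α) := by
  have h := entry (K := Unit) (L := Unit) (fun _ _ => α) () ()
  rw [elem_one, ContinuousLinearMap.comp_id, ContinuousLinearMap.id_comp] at h
  unfold rkM rk
  rw [h]

end

end Run7.h596.AZ
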