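import Pool.Agent.Run7.h596.AZ.Iso

set_option autoImplicit false
set_option linter.unusedSectionVars false
set_option linter.unusedSimpArgs false

open scoped InnerProductSpace InnerProduct ENNReal Pointwise

/-! Subgroups whose group ring has no zero divisors. -/

namespace Run7.h596.AZ

open Pool.Agent.W649.ZL Run7.h266.AZ

universe u v w

section
variable {G : Type u} {K : Type v} {L : Type w} [Group G] [Fintype K] [Fintype L]
  [DecidableEq K] [DecidableEq L]

/-- no relations over a subgroup whose group ring has no zero divisors -/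
theorem rel_nzd (H : Subgroup G) (hH : NoZeroDivisors (MonoidAlgebra ℂ H)) (α : G →₀ ℂ)
    (hα : α ≠ 0) (T : Finset G) (hT : ∀ t ∈ T, t ∈ H) :
    rel (K := Unit) (L := Unit) (fun _ _ => α) (fun _ => 1) T = ⊥ := by
  classical
  rw [eq_bot_iff]
  rintro x ⟨hx1', hx2⟩
  have hx1 : ∀ (k : Unit) (g : G), g ∉ T → x (k, g) = 0 := fun k g hg =>
    hx1' k g (by rwa [inv_one, mul_one])
  rw [Submodule.mem_bot]
  by_contra hx0
  obtain ⟨s, hs⟩ : ∃ s, α s ≠ 0 := by
    by_contra h
    push Not at h
    exact hα (Finsupp.ext h)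
  have i1 : Function.Injective (fun h : H => (((), (h : G)) : Unit × G)) := fun a b hab =>
    Subtype.ext (Prod.mk.inj hab).2
  have i2 : Function.Injective (fun h : H => (h : G) * s) := fun a b hab =>
    Subtype.ext (mul_right_cancel hab)
  set β : H →₀ ℂ := Finsupp.comapDomain (fun h : H => (((), (h : G)) : Unit × G)) x i1.injOn
    with hβ
  set γ : H →₀ ℂ := Finsupp.comapDomain (fun h : H => (h : G) * s) α i2.injOn with hγ
  have hβa : ∀ h : H, β h = x ((), (h : G)) := fun h => rfl
  have hγa : ∀ h : H, γ h = α ((h : G) * s) := fun h => rfl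
  have hβ0 : β ≠ 0 := by
    intro h
    apply hx0
    ext ⟨u, y⟩
    by_cases hy : y ∈ T
    · have := hβa ⟨y, hT y hy⟩
      rw [h] at this
      exact this.symm
    · exact hx1 () y hy
  have hγ0 : γ ≠ 0 := by
    intro h
    have := hγa 1
    rw [h] at this
    apply hs
    rw [Subgroup.coe_one, one_mul] at this
    exact this.symm
  have hprod : MonoidAlgebra.ofCoeff β * MonoidAlgebra.ofCoeff γ = 0 := by
    apply MonoidAlgebra.ext
    apply Finsupp.ext
    intro h
    rw [MonoidAlgebra.coeff_mul_apply_right]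
    change ∑ a ∈ γ.support, β (h * a⁻¹) * γ a = 0
    have h2 := hx2 () ((h : G) * s)
    rw [Fintype.sum_unique] at h2
    rw [← h2]
    have e1 : ∑ a ∈ γ.support, β (h * a⁻¹) * γ a
        = ∑ t ∈ γ.support.image (fun a : H => (a : G) * s),
          x ((), (h : G) * s * t⁻¹) * α t := by
      rw [Finset.sum_image (fun a _ b _ hab => i2 hab)]
      refine Finset.sum_congr rfl fun a _ => ?_
      rw [hβa, hγa]
      congr 3
      push_cast
      group
    rw [e1]
    apply Finset.sum_subset
    · intro t ht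
      obtain ⟨a, ha, rfl⟩ := Finset.mem_image.1 ht
      rw [Finsupp.mem_support_iff] at ha ⊢
      exact ha
    · intro t ht1 ht2
      have : x ((), (h : G) * s * t⁻¹) = 0 := by
        apply hx1
        intro hTt
        apply ht2
        have h3 := hT _ hTt
        have h4 : t * s⁻¹ ∈ H := by
          have h5 := H.mul_mem (H.inv_mem h3) h.2
          have e : ((h : G) * s * t⁻¹)⁻¹ * (h : G) = t * s⁻¹ := by group
          rwa [e] at h5
        rw [Finset.mem_image]
        refine ⟨⟨t * s⁻¹, h4⟩, ?_, by simp⟩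
        rw [Finsupp.mem_support_iff, hγa]
        simpa using Finsupp.mem_support_iff.1 ht1
      rw [this, zero_mul]
  have hz : ∀ δ : H →₀ ℂ, MonoidAlgebra.ofCoeff δ = (0 : MonoidAlgebra ℂ H) → δ = 0 := by
    intro δ h
    have := congrArg MonoidAlgebra.coeff h
    exact this
  rcases mul_eq_zero.1 hprod with h | h
  · exact hβ0 (hz β h)
  · exact hγ0 (hz γ h)

open Classical in
theorem rk_nzd (H : Subgroup G) (hH : NoZeroDivisors (MonoidAlgebra ℂ H)) (α : G →₀ ℂ)
    (hα : α ≠ 0) (T : Finset G) (hT : ∀ t ∈ T, t ∈ H) :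
    (T.card : ℝ) / (T * α.support).card ≤ rk (iv α) := by
  have h1 := le_rel_add (K := Unit) (L := Unit) (fun _ _ => α) (fun _ => 1) (fun _ => 1)
    α.support T (fun _ _ t ht => by rwa [one_mul, mul_one])
  rw [rel_nzd H hH α hα T hT, finrank_bot, rkM_unit] at h1
  have h2 : (T.card : ℝ) ≤ (T * α.support).card * rk (iv α) := by
    simpa using h1
  apply div_le_of_le_mul₀ (Nat.cast_nonneg _) (rk_nonneg _)
  rw [mul_comm]
  exact h2

open Classical in
/-- **Triangular patterns.** -/
theorem pattern (A : K → L → (G →₀ ℂ)) (p : ℕ) (i : Fin p → K) (j : Fin p → L)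
    (h0 : ∀ a b, a < b → A (i a) (j b) = 0) (hne : ∀ a, A (i a) (j a) ≠ 0)
    (H : Fin p → Subgroup G) (hH : ∀ a, NoZeroDivisors (MonoidAlgebra ℂ (H a)))
    (T : Fin p → Finset G) (hT : ∀ a, ∀ t ∈ T a, t ∈ H a) :
    ∑ a, ((T a).card : ℝ) / ((T a) * (A (i a) (j a)).support).card ≤ rkM A :=
  (Finset.sum_le_sum fun a _ => rk_nzd (H a) (hH a) _ (hne a) (T a) (hT a)).trans
    (triangular A p i j h0)

/-- the group ring of an infinite cyclic group has no zero divisors -/
theorem nzd_zpowers (g : G) (hg : ¬ IsOfFinOrder g) :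
    NoZeroDivisors (MonoidAlgebra ℂ (Subgroup.zpowers g)) := by
  have h2 : UniqueProds (Subgroup.zpowers g) := by
    let f : Multiplicative ℤ →* G := zpowersHom G g
    have hf : Function.Injective f := injective_zpow_iff_not_isOfFinOrder.2 hg
    have e : Multiplicative ℤ ≃* f.range := MonoidHom.ofInjective hf
    have h1 : f.range = Subgroup.zpowers g := by
      ext x
      constructor
      · rintro ⟨n, rfl⟩
        exact ⟨Multiplicative.toAdd n, rfl⟩
      · rintro ⟨n, rfl⟩
        exact ⟨Multiplicative.ofAdd n, rfl⟩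
    rw [← h1]
    exact (MulEquiv.uniqueProds_iff e).1 inferInstance
  exact inferInstance

end

end Run7.h596.AZ
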